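import Pool.Agent.D0H14.BC.Asm
import Pool.Agent.D0H14.BC.IntD
import Pool.Agent.D0H52.BC.Lowb
import Pool.Agent.D0H52.BC.Pol
import Pool.Agent.D0H52.BC.Tr
import Pool.Agent.D0H52.BC.Fin
import Pool.Agent.Y282.RB.Fin
import Pool.Agent.D0H17.RBn.Star

/-!
# Powers of the Beurling transform on the angular modes

On the functions `f (r e^{iθ}) = e^{imθ} φ(r)` with `m ≠ 2 n` the power `T ^ n` of the Beurling
transform has norm at most `exp ((1 - 2/p) ∑_{l<n} 2/(2l+1))`, for all `n ≥ 1` and all `p ≥ 2`; this is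
less than the constant of the question for `p > 2`.

Method: in the variable `log |z|` the operator is a one-sided convolution `f ↦ f - κ * f`; the `L^1`
norm of the exponential polynomial `κ` is bounded by `exp (∑_{l<n} 2/(2l+1)) - 1` (Carlson's inequality
and residues), modes below `n` are treated by transposition, and Riesz-Thorin interpolates with `L^2`.
-/

set_option autoImplicit false

open MeasureTheory

namespace Pool.Agent.Results.MP_dd244f_an.AngularModes

/-- The `n`-th power of the Beurling transform: the Fourier multiplier with symbol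
`(conj ξ / ξ) ^ n`, in the literal form of the frozen statement. -/
noncomputable def T (n : ℕ) (f : ℂ → ℂ) (z : ℂ) : ℂ :=
  ∫ ξ : ℂ,
    Complex.exp (2 * (Real.pi : ℂ) * Complex.I * (((z.re * ξ.re + z.im * ξ.im : ℝ)) : ℂ)) *
      ((starRingEnd ℂ ξ / ξ) ^ n *
        ∫ x : ℂ, Complex.exp (-(2 * (Real.pi : ℂ) * Complex.I *
          (((x.re * ξ.re + x.im * ξ.im : ℝ)) : ℂ))) * f x)

/-- The constant `(1/q)_n / (1/p)_n` of the question. -/
noncomputable def K (n : ℕ) (p : ℝ) : ℝ :=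
  (ascPochhammer ℝ n).eval (1 - 1 / p) / (ascPochhammer ℝ n).eval (1 / p)

/-- The angular modes: `f (a z) = a ^ m f z` for `|a| = 1`, that is `f (r e^{iθ}) = e^{imθ} φ(r)`. -/
def Mode (m : ℤ) (f : ℂ → ℂ) : Prop := ∀ a z : ℂ, ‖a‖ = 1 → f (a * z) = a ^ m * f z

/-- The bound `A n p = exp ((1 - 2/p) ∑_{l<n} 2/(2l+1))`. -/
noncomputable def A (n : ℕ) (p : ℝ) : ℝ :=
  Real.exp ((1 - 2 / p) * ∑ l ∈ Finset.range n, 2 / (2 * (l : ℝ) + 1))

/-- For every `n ≥ 1` and every real `p ≥ 2`: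
(1) `‖T^n f‖_p ≤ A(n,p) ‖f‖_p` for all Schwartz functions of every angular mode `m ≠ 2n`;
(2) `A(n,p) ≤ K(n,p) = (1/q)_n/(1/p)_n`, with strict inequality for `p > 2`;
(3) if `n = 2` or `p ≥ 160 n^2`, the inequality of the question holds for the Schwartz functions of
every angular mode `m`, without exception. -/
theorem result (n : ℕ) (hn : 1 ≤ n) (p : ℝ) (hp : 2 ≤ p) :
    (∀ m : ℤ, m ≠ 2 * n → ∀ f : SchwartzMap ℂ ℂ, Mode m f →
      eLpNorm (T n f) (ENNReal.ofReal p) (volume : Measure ℂ)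
        ≤ ENNReal.ofReal (A n p) * eLpNorm f (ENNReal.ofReal p) (volume : Measure ℂ)) ∧
    (A n p ≤ K n p ∧ (2 < p → A n p < K n p)) ∧
    ((n = 2 ∨ 160 * (n : ℝ) ^ 2 ≤ p) → ∀ (m : ℤ) (f : SchwartzMap ℂ ℂ), Mode m f →
      eLpNorm (T n f) (ENNReal.ofReal p) (volume : Measure ℂ)
        ≤ ENNReal.ofReal (K n p) * eLpNorm f (ENNReal.ofReal p) (volume : Measure ℂ)) := by
  have h1 : ∀ m : ℤ, m ≠ 2 * n → ∀ f : SchwartzMap ℂ ℂ, Mode m f →
      eLpNorm (T n f) (ENNReal.ofReal p) (volume : Measure ℂ)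
        ≤ ENNReal.ofReal (A n p) * eLpNorm f (ENNReal.ofReal p) (volume : Measure ℂ) :=
    fun m hm f hf => D0H14.BC.modes D0H52.BC.t_TR D0H52.BC.t_POL D0H14.BC.Int.t_INT
      D0H52.BC.t_FIN n m hn hm p hp f hf
  have h2 : A n p ≤ K n p ∧ (2 < p → A n p < K n p) := D0H52.BC.t_LOWB n p hn hp
  refine ⟨h1, h2, fun hc m f hf => ?_⟩
  by_cases hm : m = 2 * n
  · have hstar : Y282.RB.Star n p := by
      rcases hc with rfl | hc
      · exact Y282.RB.Fin.star2 p hp
      · exact D0H17.RBn.star n p hn hc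
    have hK : K n p = Y282.RB.Cn p n := (Y282.RB.K3.main n p (by linarith)).symm
    have hpos : 0 < Y282.RB.Cn p n := by
      unfold Y282.RB.Cn
      refine Finset.prod_pos (fun j _ => ?_)
      have h1 : (1 : ℝ) / p < 1 := by
        rw [div_lt_one (by linarith)]; linarith
      have h2 : (0 : ℝ) < 1 / p := by positivity
      have h3 : (0 : ℝ) ≤ (j : ℝ) := Nat.cast_nonneg j
      apply div_pos <;> linarith
    rw [hK]
    refine Y282.RB.K.main n p (Y282.RB.Cn p n) hn hp hpos.le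
      (fun g hg hs => Y282.RB.Fin.plane n p hn hp hstar g hg hs) f (fun a z ha => ?_)
    have := hf a z ha
    rw [hm] at this
    rw [this]
    congr 1
  · exact (h1 m hm f hf).trans (by gcongr; exact h2.1)

end Pool.Agent.Results.MP_dd244f_an.AngularModes
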