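import Pool.Agent.D0H14.SV.LocC

/-!
# Powers of the Beurling transform: the inequality of the question near the conjectured extremal,
for every `n ≥ 1` and every `p > 2`

Since `T ^ n (∂̄ ^ n u) = ∂ ^ n u`, the question asks for `‖∂ ^ n u‖_p ≤ K n p ‖∂̄ ^ n u‖_p`,
`K n p = (1/q)_n / (1/p)_n`, and the constant comes from `u₀ (z) = z ^ n ‖z‖ ^ (-2/p)` (truncated).
Here the functional `D (u) = K ^ p ∫ ‖∂̄ ^ n u‖ ^ p - ∫ ‖∂ ^ n u‖ ^ p` is studied near `u₀`.  Along every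
line `u₀ + ε v`, `v` smooth with compact support in `ℂ ∖ {0}`, it is at least `c ε ^ 2` (a direction
of decrease would give a counterexample after truncation); and in a uniform neighbourhood of `u₀`
it decreases when `v` is replaced by its projection on the functions `z ^ n g (‖z‖)`.

Outline (files `Pool/Agent/D0H14/SV/*`).  With `z = e ^ (t + i θ)`, `s = 1/p`, `x_j = s + j`,
`y_j = j + 1 - s`, one has `‖∂̄ ^ n (u₀ + ε v)‖ = e ^ (-2 s t) (∏ x_j) ‖1 + ε W‖`,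
`‖∂ ^ n (u₀ + ε v)‖ = e ^ (-2 s t) (∏ y_j) ‖1 + ε W'‖`, where, if `ψ_m (t)` are the Fourier
coefficients of `θ ↦ (v / u₀) (e ^ (t + i θ))`, those of `W` are
`∏ (x_j + m/2 - ∂_t/2) ψ_m / ∏ x_j` and those of `W'` are `∏ (y_j + m/2 + ∂_t/2) ψ_m / ∏ y_j`
(`Wir`, `Fin`, `Coef`, `GenA`).  Both zero modes have the same integral, and the second variation is
the difference of the integrals of `(p - 1) (Re W) ^ 2 + (Im W) ^ 2` (`Tay`, `Pars`, `GenB`).  Its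
positivity follows from `(p - 1) ‖W'_m‖² ≤ ‖W_m‖²` for `m ≠ 0` and from a weighted inequality for
`m = 0`, strict for nonzero `ψ_m` (`Modes`); by `‖(a ± ∂_t/2) h‖² = a² ‖h‖² + ‖h'‖² / 4` these are
inequalities between the coefficients of `(p - 1) (∏ x_j)² ∏ (T + (y_j + m/2)²)` and
`(∏ y_j)² ∏ (T + (x_j + m/2)²)` (`Poly`, `Ops`).  For `m ≠ 0` they hold with a constant larger than
`p - 1` (`PolyG`), which absorbs the remainders in a uniform neighbourhood (`Loc`, `LocB`, `LocC`).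
-/

set_option autoImplicit false

open Set MeasureTheory
open scoped ContDiff

namespace Pool.Agent.Results.MP_dd244f_an.ExtremalStable

open Pool.Agent.D0H14.BA (dz dzb K)
open Pool.Agent.D0H14.SV (u0 proj)

/-- Let `n ≥ 1`, `p > 2`.
(1) At the conjectured extremal `u₀ (z) = z ^ n ‖z‖ ^ (-2/p)` one has `‖∂ ^ n u₀‖ = K ‖∂̄ ^ n u₀‖ > 0`
at every point `z ≠ 0`.
(2) For every smooth `v ≠ 0` with compact support in `ℂ ∖ {0}` there are `c > 0`, `ε₀ > 0` such that,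
for all real `ε` with `|ε| ≤ ε₀` and every annulus `a ≤ ‖z‖ ≤ b` outside which `v` vanishes,
`∫ ‖∂ ^ n (u₀ + ε v)‖ ^ p + c ε ^ 2 ≤ K ^ p ∫ ‖∂̄ ^ n (u₀ + ε v)‖ ^ p` over the annulus.
(3) There is `η > 0`, depending on `n` and `p` only, such that for all such `v` with
`‖∂̄ ^ n v‖ ≤ η ‖∂̄ ^ n u₀‖` and `‖∂ ^ n v‖ ≤ η ‖∂ ^ n u₀‖` the difference
`K ^ p ∫ ‖∂̄ ^ n u‖ ^ p - ∫ ‖∂ ^ n u‖ ^ p` is at least as large for `u = u₀ + v` as for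
`u = u₀ + proj v`, where `proj v` is the projection of `v` on the functions `z ^ n g (‖z‖)`; it is
larger if `v ≠ proj v`. -/
theorem result (n : ℕ) (hn : 1 ≤ n) (p : ℝ) (hp : 2 < p) :
    (∀ z : ℂ, z ≠ 0 → ‖(dz^[n] (u0 n p)) z‖ = K n p * ‖(dzb^[n] (u0 n p)) z‖ ∧
      0 < ‖(dzb^[n] (u0 n p)) z‖) ∧
    (∀ v : ℂ → ℂ, ContDiff ℝ ∞ v → HasCompactSupport v → (0 : ℂ) ∉ tsupport v → v ≠ 0 →
      ∃ c : ℝ, 0 < c ∧ ∃ ε₀ : ℝ, 0 < ε₀ ∧ ∀ a b : ℝ, 0 < a →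
        (∀ z, v z ≠ 0 → a ≤ ‖z‖ ∧ ‖z‖ ≤ b) → ∀ ε : ℝ, |ε| ≤ ε₀ →
        (∫ z in {z : ℂ | a ≤ ‖z‖ ∧ ‖z‖ ≤ b},
            ‖(dz^[n] (fun z => u0 n p z + (ε : ℂ) * v z)) z‖ ^ p) + c * ε ^ 2
          ≤ K n p ^ p * ∫ z in {z : ℂ | a ≤ ‖z‖ ∧ ‖z‖ ≤ b},
            ‖(dzb^[n] (fun z => u0 n p z + (ε : ℂ) * v z)) z‖ ^ p) ∧
    ∃ η : ℝ, 0 < η ∧
      ∀ v : ℂ → ℂ, ContDiff ℝ ∞ v → HasCompactSupport v → (0 : ℂ) ∉ tsupport v →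
        (∀ z, z ≠ 0 → ‖(dzb^[n] v) z‖ ≤ η * ‖(dzb^[n] (u0 n p)) z‖) →
        (∀ z, z ≠ 0 → ‖(dz^[n] v) z‖ ≤ η * ‖(dz^[n] (u0 n p)) z‖) →
        ∀ a b : ℝ, 0 < a → a ≤ b → (∀ z, v z ≠ 0 → a ≤ ‖z‖ ∧ ‖z‖ ≤ b) →
        ((K n p ^ p * ∫ z in {z : ℂ | a ≤ ‖z‖ ∧ ‖z‖ ≤ b},
              ‖(dzb^[n] (fun z => u0 n p z + proj n v z)) z‖ ^ p)
            - (∫ z in {z : ℂ | a ≤ ‖z‖ ∧ ‖z‖ ≤ b},
              ‖(dz^[n] (fun z => u0 n p z + proj n v z)) z‖ ^ p)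
          ≤ (K n p ^ p * ∫ z in {z : ℂ | a ≤ ‖z‖ ∧ ‖z‖ ≤ b},
              ‖(dzb^[n] (fun z => u0 n p z + v z)) z‖ ^ p)
            - ∫ z in {z : ℂ | a ≤ ‖z‖ ∧ ‖z‖ ≤ b},
              ‖(dz^[n] (fun z => u0 n p z + v z)) z‖ ^ p) ∧
        (v ≠ proj n v →
          (K n p ^ p * ∫ z in {z : ℂ | a ≤ ‖z‖ ∧ ‖z‖ ≤ b},
              ‖(dzb^[n] (fun z => u0 n p z + proj n v z)) z‖ ^ p)
            - (∫ z in {z : ℂ | a ≤ ‖z‖ ∧ ‖z‖ ≤ b},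
              ‖(dz^[n] (fun z => u0 n p z + proj n v z)) z‖ ^ p)
          < (K n p ^ p * ∫ z in {z : ℂ | a ≤ ‖z‖ ∧ ‖z‖ ≤ b},
              ‖(dzb^[n] (fun z => u0 n p z + v z)) z‖ ^ p)
            - ∫ z in {z : ℂ | a ≤ ‖z‖ ∧ ‖z‖ ≤ b},
              ‖(dz^[n] (fun z => u0 n p z + v z)) z‖ ^ p) :=
  ⟨fun _ hz => Pool.Agent.D0H14.SV.at_u0 n hp hz,
    fun _ hv hc h0 hne => Pool.Agent.D0H14.SV.main_v n hn hp hv hc h0 hne,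
    Pool.Agent.D0H14.SV.main_loc n hn hp⟩

end Pool.Agent.Results.MP_dd244f_an.ExtremalStable
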