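import Pool.Agent.D0H14.BA.Fin

/-!
# Powers of the Beurling transform: the sharp inequality on all homogeneous functions,
for every `n ≥ 1` and every `p ≥ 450`

Since `T ^ n (∂̄ ^ n u) = ∂ ^ n u`, the question asks for `‖∂ ^ n u‖_p ≤ K n p ‖∂̄ ^ n u‖_p`,
`K n p = (1/q)_n / (1/p)_n`.  The constant comes from the function `u₀ (z) = z ^ n |z| ^ (-2/p)`, for
which `∂̄ ^ n u₀` is homogeneous of degree `-2/p` for the dilations.  Here the inequality is proved on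
every annulus for all `u` of class `C ^ n` outside the origin which are homogeneous of degree
`n - 2/p`, with arbitrary dependence on the angle, for all `n` and all `p ≥ 450`; and `u₀` is, up to
constants, the only case of equality.

Outline (files `Pool/Agent/D0H14/BA/*`).  With `h (θ) = e ^ (-i n θ) u (e ^ (i θ))`, `D = -i d/dθ`,
`s = 1/p`, one has `|∂̄ ^ n u| = 2 ^ (-n) |P (D) h|`, `|∂ ^ n u| = 2 ^ (-n) |Q (D) h|` on the circle,
`P = ∏_{l < n} (X + 2 l + 2 s)`, `Q = ∏_{1 ≤ l ≤ n} (X + 2 l - 2 s)` (`Cal`).  The Lagrange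
decomposition `Q = P + ∑ A_l P / (X + 2 l + 2 s)` has non-negative coefficients, `A_l` (`l ≥ 1`) is
small with respect to `A_0`, in the sense of squares, uniformly in `n` (`Lag`, `LagB`), so
`Q (D) / P (D)` is the identity plus a convolution whose kernel differs from a constant by
`≤ 3.24 A_0` in the square mean, while `K ≥ p A_0 / 2` (`CircB`).  The inequality then follows from a
comparison of the `p`-th moments of `1 + Y` and `1 + X` for centred `X`, `Y` with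
`p |Y| ≤ 1.01 |X| + 6.5 ‖X‖_2` (`ProbS`).
-/

set_option autoImplicit false

open MeasureTheory

namespace Pool.Agent.Results.MP_dd244f_an.HomogeneousSharp

open Pool.Agent.D0H14.BA

/-- Let `n ≥ 1`, `p ≥ 450` and `0 < a < b`.
(1) For every function `u` of class `C ^ n` on `ℂ ∖ {0}` with `u (t z) = t ^ (n - 2/p) u z` for
`t > 0`, the inequality `‖∂ ^ n u‖_p ≤ K n p ‖∂̄ ^ n u‖_p` holds on the annulus `a ≤ ‖z‖ ≤ b`, with
equality if and only if `u` is a constant multiple of `z ^ n ‖z‖ ^ (-2/p)`.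
(2) The function `z ^ n ‖z‖ ^ (-2/p)` belongs to the class and both sides are positive for it, so the
constant `K n p = (1/q)_n / (1/p)_n` is attained in the class. -/
theorem result (n : ℕ) (hn : 1 ≤ n) (p : ℝ) (hp : 450 ≤ p) (a b : ℝ) (ha : 0 < a) (hab : a < b) :
    (∀ u : ℂ → ℂ, ContDiffOn ℝ n u {0}ᶜ → Homog (n - 2 / p) u →
      (∫ z in {z : ℂ | a ≤ ‖z‖ ∧ ‖z‖ ≤ b}, ‖(dz^[n] u) z‖ ^ p
        ≤ K n p ^ p * ∫ z in {z : ℂ | a ≤ ‖z‖ ∧ ‖z‖ ≤ b}, ‖(dzb^[n] u) z‖ ^ p) ∧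
      (∫ z in {z : ℂ | a ≤ ‖z‖ ∧ ‖z‖ ≤ b}, ‖(dz^[n] u) z‖ ^ p
          = K n p ^ p * ∫ z in {z : ℂ | a ≤ ‖z‖ ∧ ‖z‖ ≤ b}, ‖(dzb^[n] u) z‖ ^ p ↔
        ∃ c : ℂ, ∀ z : ℂ, z ≠ 0 → u z = c * (z ^ n * ((‖z‖ ^ (-(2 / p)) : ℝ) : ℂ)))) ∧
    ContDiffOn ℝ n (fun z : ℂ => z ^ n * ((‖z‖ ^ (-(2 / p)) : ℝ) : ℂ)) {0}ᶜ ∧
    Homog (n - 2 / p) (fun z : ℂ => z ^ n * ((‖z‖ ^ (-(2 / p)) : ℝ) : ℂ)) ∧
    0 < ∫ z in {z : ℂ | a ≤ ‖z‖ ∧ ‖z‖ ≤ b},
      ‖(dzb^[n] (fun z : ℂ => z ^ n * ((‖z‖ ^ (-(2 / p)) : ℝ) : ℂ))) z‖ ^ p :=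
  ⟨fun u hu hb => main n hn p hp u hu hb a b ha hab, extremal n hn p hp a b ha hab⟩

end Pool.Agent.Results.MP_dd244f_an.HomogeneousSharp
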